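import Pool.Agent.H751R2.LHY.Defs
import Pool.Agent.H994R2.LHY.Sign
import Pool.Agent.H464R2.LHY.Cas

/-!
# Sign sums of the two-body integral (task T6f)
-/

open MeasureTheory UnitAddTorus
open scoped ComplexConjugate ENNReal

namespace Pool.Agent.H751R2.LHY

noncomputable section


/-! sign bookkeeping and the pointwise identity (abstract form) -/

theorem qs_sg_sq (b : Bool) : sg b * sg b = 1 := by cases b <;> simp [sg]

theorem qs_sg_beq (a b : Bool) : sg (a == b) = sg a * sg b := by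
  cases a <;> cases b <;> simp [sg]

theorem qs_beq_beq (a b : Bool) : (a == (b == a)) = b := by
  cases a <;> cases b <;> rfl

section
variable {K : Type*} [Fintype K] [DecidableEq K]

/-- substitution `ξ' = η ξ` -/
theorem qs_subst (F : (K → Bool) → (K → Bool) → ℂ) (g : (K → Bool) → ℂ) :
    ∑ ξ : K → Bool, ∑ ξ' : K → Bool, F ξ ξ' * g (fun n => ξ n == ξ' n) =
      ∑ η : K → Bool, g η * ∑ ξ : K → Bool, F ξ (fun n => η n == ξ n) := by
  have h1 : ∀ ξ : K → Bool, ∑ ξ' : K → Bool, F ξ ξ' * g (fun n => ξ n == ξ' n) =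
      ∑ η : K → Bool, F ξ (fun n => η n == ξ n) * g η := by
    intro ξ
    have hinv : Function.Involutive (fun (η : K → Bool) => (fun n => η n == ξ n)) := by
      intro η
      funext n
      show ((η n == ξ n) == ξ n) = η n
      cases η n <;> cases ξ n <;> rfl
    rw [← (Equiv.sum_comp (hinv.toPerm _) (fun ξ' => F ξ ξ' * g (fun n => ξ n == ξ' n)))]
    apply Finset.sum_congr rfl
    intro η _
    have : (fun n => ξ n == (η n == ξ n)) = η := by
      funext n
      exact qs_beq_beq _ _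
    show F ξ (fun n => η n == ξ n) * g (fun n => ξ n == (η n == ξ n)) = _
    rw [this]
  simp_rw [h1]
  rw [Finset.sum_comm]
  apply Finset.sum_congr rfl
  intro η _
  rw [Finset.mul_sum]
  apply Finset.sum_congr rfl
  intro ξ _
  ring

/-- splitting a product of sums into diagonal and off-diagonal part -/
theorem qs_split (A B : K → ℝ) :
    (∑ n, A n) * (∑ n, B n) = ∑ n, A n * B n + ∑ n, ∑ n' ∈ Finset.univ.erase n, A n * B n' := by
  rw [Finset.sum_mul_sum, ← Finset.sum_add_distrib]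
  apply Finset.sum_congr rfl
  intro n _
  rw [← Finset.add_sum_erase _ _ (Finset.mem_univ n)]

end



section
variable {K : Type*} [Fintype K] [DecidableEq K]

theorem qs_point (s : K → ℂ) (c p q : K → ℝ) (hs : ∀ n, s n ^ 2 = -(c n : ℂ))
    (hn : ∀ n, conj (s n) * s n = (|c n| : ℝ)) (η : K → Bool) :
    ∑ ξ : K → Bool,
      (conj (1 + ∑ n, s n * (sg (ξ n) : ℂ) * (p n : ℂ)) *
        (1 + ∑ n, s n * (sg (η n == ξ n) : ℂ) * (p n : ℂ))) *
      (conj (1 + ∑ n, s n * (sg (ξ n) : ℂ) * (q n : ℂ)) *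
        (1 + ∑ n, s n * (sg (η n == ξ n) : ℂ) * (q n : ℂ)))
    = ((2 ^ Fintype.card K * ((1 - ∑ n, c n * (p n * q n)) ^ 2
      + ∑ n, |c n| * (p n + q n) ^ 2 * sg (η n)
      + ∑ n, ∑ n' ∈ Finset.univ.erase n, |c n| * |c n'| *
          (p n ^ 2 * q n' ^ 2 + p n * q n * (p n' * q n')) * (sg (η n) * sg (η n'))) : ℝ) : ℂ) := by
  have hcs : ∀ n, conj (s n) ^ 2 = -(c n : ℂ) := by
    intro n
    rw [← map_pow, hs n]
    simp
  have hη : ∀ n, ((sg (η n) : ℝ) : ℂ) * (sg (η n) : ℂ) = 1 := by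
    intro n
    rw [← Complex.ofReal_mul, qs_sg_sq]
    simp
  set P : ℝ := ∑ n, |c n| * sg (η n) * p n ^ 2 with hP
  set Q : ℝ := ∑ n, |c n| * sg (η n) * q n ^ 2 with hQ
  set X : ℝ := ∑ n, |c n| * sg (η n) * (p n * q n) with hX
  set w : ℝ := ∑ n, c n * (p n * q n) with hw
  set D : ℝ := ∑ n, |c n| ^ 2 * (p n ^ 2 * q n ^ 2) with hD
  have h := four (fun n => conj (s n) * (p n : ℂ)) (fun n => conj (s n) * (q n : ℂ))
    (fun n => s n * (sg (η n) : ℂ) * (p n : ℂ)) (fun n => s n * (sg (η n) : ℂ) * (q n : ℂ))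
  have e1 : ∑ n, (conj (s n) * (p n : ℂ)) * (conj (s n) * (q n : ℂ)) = -(w : ℂ) := by
    rw [hw, Complex.ofReal_sum, ← Finset.sum_neg_distrib]
    apply Finset.sum_congr rfl
    intro n _
    have := hcs n
    push_cast
    linear_combination (p n : ℂ) * (q n : ℂ) * this
  have e6 : ∑ n, (s n * (sg (η n) : ℂ) * (p n : ℂ)) * (s n * (sg (η n) : ℂ) * (q n : ℂ)) =
      -(w : ℂ) := by
    rw [hw, Complex.ofReal_sum, ← Finset.sum_neg_distrib]
    apply Finset.sum_congr rfl
    intro n _
    have h1 := hs n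
    have h2 := hη n
    push_cast
    linear_combination (p n : ℂ) * (q n : ℂ) * ((sg (η n) : ℂ) * (sg (η n) : ℂ)) * h1
      - (c n : ℂ) * (p n : ℂ) * (q n : ℂ) * h2
  have e2 : ∑ n, (conj (s n) * (p n : ℂ)) * (s n * (sg (η n) : ℂ) * (p n : ℂ)) = (P : ℂ) := by
    rw [hP, Complex.ofReal_sum]
    apply Finset.sum_congr rfl
    intro n _
    have h1 := hn n
    push_cast
    push_cast at h1
    linear_combination (p n : ℂ) * (p n : ℂ) * (sg (η n) : ℂ) * h1
  have e3 : ∑ n, (conj (s n) * (p n : ℂ)) * (s n * (sg (η n) : ℂ) * (q n : ℂ)) = (X : ℂ) := by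
    rw [hX, Complex.ofReal_sum]
    apply Finset.sum_congr rfl
    intro n _
    have h1 := hn n
    push_cast
    push_cast at h1
    linear_combination (p n : ℂ) * (q n : ℂ) * (sg (η n) : ℂ) * h1
  have e4 : ∑ n, (conj (s n) * (q n : ℂ)) * (s n * (sg (η n) : ℂ) * (p n : ℂ)) = (X : ℂ) := by
    rw [hX, Complex.ofReal_sum]
    apply Finset.sum_congr rfl
    intro n _
    have h1 := hn n
    push_cast
    push_cast at h1
    linear_combination (p n : ℂ) * (q n : ℂ) * (sg (η n) : ℂ) * h1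
  have e5 : ∑ n, (conj (s n) * (q n : ℂ)) * (s n * (sg (η n) : ℂ) * (q n : ℂ)) = (Q : ℂ) := by
    rw [hQ, Complex.ofReal_sum]
    apply Finset.sum_congr rfl
    intro n _
    have h1 := hn n
    push_cast
    push_cast at h1
    linear_combination (q n : ℂ) * (q n : ℂ) * (sg (η n) : ℂ) * h1
  have e7 : ∑ n, (conj (s n) * (p n : ℂ)) * (conj (s n) * (q n : ℂ)) *
      (s n * (sg (η n) : ℂ) * (p n : ℂ)) * (s n * (sg (η n) : ℂ) * (q n : ℂ)) = (D : ℂ) := by
    rw [hD, Complex.ofReal_sum]
    apply Finset.sum_congr rfl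
    intro n _
    have h1 := hn n
    have h2 := hη n
    have h3 : (conj (s n) * s n) ^ 2 = ((|c n| : ℝ) : ℂ) ^ 2 := by rw [h1]
    rw [Complex.ofReal_mul, Complex.ofReal_mul, Complex.ofReal_pow, Complex.ofReal_pow,
      Complex.ofReal_pow]
    linear_combination (p n : ℂ) ^ 2 * (q n : ℂ) ^ 2 * ((sg (η n) : ℂ) * (sg (η n) : ℂ)) * h3
      + ((|c n| : ℝ) : ℂ) ^ 2 * (p n : ℂ) ^ 2 * (q n : ℂ) ^ 2 * h2
  simp only [e1, e2, e3, e4, e5, e6, e7] at h
  have hL : ∀ ξ : K → Bool,
      (conj (1 + ∑ n, s n * (sg (ξ n) : ℂ) * (p n : ℂ)) *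
        (1 + ∑ n, s n * (sg (η n == ξ n) : ℂ) * (p n : ℂ))) *
      (conj (1 + ∑ n, s n * (sg (ξ n) : ℂ) * (q n : ℂ)) *
        (1 + ∑ n, s n * (sg (η n == ξ n) : ℂ) * (q n : ℂ))) =
      (1 + ∑ κ, (conj (s κ) * (p κ : ℂ)) * (sg (ξ κ) : ℂ)) *
      (1 + ∑ κ, (conj (s κ) * (q κ : ℂ)) * (sg (ξ κ) : ℂ)) *
      (1 + ∑ κ, (s κ * (sg (η κ) : ℂ) * (p κ : ℂ)) * (sg (ξ κ) : ℂ)) *
      (1 + ∑ κ, (s κ * (sg (η κ) : ℂ) * (q κ : ℂ)) * (sg (ξ κ) : ℂ)) := by
    intro ξ
    have a1 : ∀ r : K → ℝ, conj (1 + ∑ n, s n * (sg (ξ n) : ℂ) * (r n : ℂ)) =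
        1 + ∑ κ, (conj (s κ) * (r κ : ℂ)) * (sg (ξ κ) : ℂ) := by
      intro r
      rw [map_add, map_one, map_sum]
      congr 1
      apply Finset.sum_congr rfl
      intro n _
      simp only [map_mul, Complex.conj_ofReal]
      ring
    have a2 : ∀ r : K → ℝ, (1 + ∑ n, s n * (sg (η n == ξ n) : ℂ) * (r n : ℂ)) =
        1 + ∑ κ, (s κ * (sg (η κ) : ℂ) * (r κ : ℂ)) * (sg (ξ κ) : ℂ) := by
      intro r
      congr 1
      apply Finset.sum_congr rfl
      intro n _
      rw [qs_sg_beq]
      push_cast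
      ring
    rw [a1, a1, a2, a2]
    ring
  simp_rw [hL]
  rw [h]
  have hPQ : P * Q = D + ∑ n, ∑ n' ∈ Finset.univ.erase n,
      (|c n| * sg (η n) * p n ^ 2) * (|c n'| * sg (η n') * q n' ^ 2) := by
    rw [hP, hQ, qs_split, hD]
    congr 1
    apply Finset.sum_congr rfl
    intro n _
    have := qs_sg_sq (η n)
    linear_combination |c n| ^ 2 * p n ^ 2 * q n ^ 2 * this
  have hXX : X * X = D + ∑ n, ∑ n' ∈ Finset.univ.erase n,
      (|c n| * sg (η n) * (p n * q n)) * (|c n'| * sg (η n') * (p n' * q n')) := by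
    rw [hX, qs_split, hD]
    congr 1
    apply Finset.sum_congr rfl
    intro n _
    have := qs_sg_sq (η n)
    linear_combination |c n| ^ 2 * p n ^ 2 * q n ^ 2 * this
  have hsum : ∑ n, |c n| * (p n + q n) ^ 2 * sg (η n) = P + 2 * X + Q := by
    rw [hP, hQ, hX, Finset.mul_sum, ← Finset.sum_add_distrib, ← Finset.sum_add_distrib]
    apply Finset.sum_congr rfl
    intro n _
    ring
  have hoff : ∑ n, ∑ n' ∈ Finset.univ.erase n, |c n| * |c n'| *
          (p n ^ 2 * q n' ^ 2 + p n * q n * (p n' * q n')) * (sg (η n) * sg (η n')) =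
      (P * Q - D) + (X * X - D) := by
    rw [hPQ, hXX, add_sub_cancel_left, add_sub_cancel_left, ← Finset.sum_add_distrib]
    apply Finset.sum_congr rfl
    intro n _
    rw [← Finset.sum_add_distrib]
    apply Finset.sum_congr rfl
    intro n' _
    ring
  rw [hsum, hoff]
  push_cast
  ring

end



theorem qs_int {W : T3 → ℝ} (hW : Pot W) :
    Integrable (fun z : T3 × T3 => W (z.1 - z.2)) (volume.prod volume) :=
  (measurePreserving_sub_prod (volume : Measure T3) (volume : Measure T3)).integrable_comp_of_integrable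
    (hW.int.comp_fst volume)

theorem qs_intC {W : T3 → ℝ} (hW : Pot W) {f : T3 × T3 → ℂ} (hf : Continuous f) :
    Integrable (fun z : T3 × T3 => (W (z.1 - z.2) : ℂ) * f z) (volume.prod volume) := by
  obtain ⟨C, hC⟩ := isCompact_univ.exists_bound_of_continuousOn hf.continuousOn
  exact (qs_int hW).ofReal.mul_bdd hf.aestronglyMeasurable
    (Filter.Eventually.of_forall fun z => hC z (Set.mem_univ _))

theorem qs_intR {W : T3 → ℝ} (hW : Pot W) {f : T3 × T3 → ℝ} (hf : Continuous f) :
    Integrable (fun z : T3 × T3 => W (z.1 - z.2) * f z) (volume.prod volume) := by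
  obtain ⟨C, hC⟩ := isCompact_univ.exists_bound_of_continuousOn hf.continuousOn
  exact (qs_int hW).mul_bdd hf.aestronglyMeasurable
    (Filter.Eventually.of_forall fun z => hC z (Set.mem_univ _))

theorem qs_quad {W : T3 → ℝ} (hW : Pot W) {F : T3 → ℂ} (hF : Continuous F) :
    quad W F = ∫ z : T3 × T3, (W (z.1 - z.2) : ℂ) * (F z.1 * F z.2) ∂(volume.prod volume) := by
  rw [integral_prod _ (qs_intC hW (f := fun z => F z.1 * F z.2) (by fun_prop))]
  unfold quad
  simp only [mul_assoc]

/-- `∫∫ W(x-y) f(x-y) = ∫ W f` -/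
theorem qs_diff {W : T3 → ℝ} (f : T3 → ℝ) (hf : Integrable (fun y => W y * f y)) :
    ∫ z : T3 × T3, W (z.1 - z.2) * f (z.1 - z.2) ∂(volume.prod volume) = ∫ y, W y * f y := by
  have hmp := (measurePreserving_sub_prod (volume : Measure T3) (volume : Measure T3))
  have hi : Integrable (fun z : T3 × T3 => W z.1 * f z.1) (volume.prod volume) :=
    hf.comp_fst volume
  have h1 : ∫ z : T3 × T3, W (z.1 - z.2) * f (z.1 - z.2) ∂(volume.prod volume) =
      ∫ z : T3 × T3, W z.1 * f z.1 ∂(volume.prod volume) := by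
    have := MeasureTheory.integral_map (μ := (volume : Measure T3).prod (volume : Measure T3))
      (φ := fun z : T3 × T3 => (z.1 - z.2, z.2)) hmp.measurable.aemeasurable
      (f := fun z : T3 × T3 => W z.1 * f z.1) (by rw [hmp.map_eq]; exact hi.aestronglyMeasurable)
    rw [hmp.map_eq] at this
    exact this.symm
  rw [h1, integral_prod _ hi]
  simp

/-- `∫∫ W(x-y) h(x) = ∫ W ∫ h` -/
theorem qs_left {W : T3 → ℝ} (hW : Pot W) {h : T3 → ℝ} (hh : Continuous h) :
    ∫ z : T3 × T3, W (z.1 - z.2) * h z.1 ∂(volume.prod volume) = (∫ y, W y) * ∫ y, h y := by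
  rw [integral_prod _ (qs_intR hW (f := fun z => h z.1) (by fun_prop))]
  have : ∀ x : T3, ∫ y, W (x - y) * h x = (∫ y, W y) * h x := by
    intro x
    rw [integral_mul_const]
    congr 1
    have h1 : (fun y => W (x - y)) = fun y => W (y - x) := by
      funext y
      rw [← hW.even, neg_sub]
    rw [h1, integral_sub_right_eq_self (μ := (volume : Measure T3)) W x]
  simp_rw [this]
  rw [integral_const_mul]

theorem qs_right {W : T3 → ℝ} (hW : Pot W) {h : T3 → ℝ} (hh : Continuous h) :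
    ∫ z : T3 × T3, W (z.1 - z.2) * h z.2 ∂(volume.prod volume) = (∫ y, W y) * ∫ y, h y := by
  rw [integral_prod_symm _ (qs_intR hW (f := fun z => h z.2) (by fun_prop))]
  have : ∀ y : T3, ∫ x, W (x - y) * h y = (∫ y, W y) * h y := by
    intro y
    rw [integral_mul_const]
    congr 1
    rw [integral_sub_right_eq_self (μ := (volume : Measure T3)) W y]
  simp_rw [this]
  rw [integral_const_mul]



theorem qs_uf_cont (B0 : Finset Mom) (c : Mom → ℝ) (ξ : B0 → Bool) : Continuous (uf B0 c ξ) := by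
  unfold uf
  refine continuous_const.add (continuous_finsetSum _ fun n _ => ?_)
  exact continuous_const.mul (Complex.continuous_ofReal.comp (cas_continuous n))

theorem qs_cs_cont (n : Mom) : Continuous (cs n) := by
  unfold cs
  exact Complex.continuous_re.comp (mFourier n).continuous

theorem qs_wf_cont (B0 : Finset Mom) (c : Mom → ℝ) : Continuous (wf B0 c) := by
  unfold wf
  exact continuous_finsetSum _ fun n _ => continuous_const.mul (qs_cs_cont n)

theorem quad_sum {W : T3 → ℝ} (hW : Pot W) {B0 : Finset Mom} (hB0 : Sym B0)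
    {c : Mom → ℝ} (hc : ∀ n, c (-n) = c n) (g : (B0 → Bool) → ℝ) :
    ∃ (J : B0 → ℝ) (J2 : B0 → B0 → ℝ),
      (∀ n, 0 ≤ J n ∧ J n ≤ 4 * ∫ y, W y) ∧ (∀ n n', n ≠ n' → J2 n n' ≤ 4 * ∫ y, W y) ∧
      (∑ ξ : B0 → Bool, ∑ ξ' : B0 → Bool,
        quad W (fun y => conj (uf B0 c ξ y) * uf B0 c ξ' y) *
          (g (fun n => ξ n == ξ' n) : ℂ)) =
      ((2 ^ Fintype.card B0 * ((∑ η, g η) * (∫ y, W y * (1 - wf B0 c y) ^ 2)
        + ∑ n : B0, |c n| * J n * (∑ η, sg (η n) * g η)
        + ∑ n : B0, ∑ n' ∈ Finset.univ.erase n, |c n| * |c n'| * J2 n n' *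
            (∑ η, sg (η n) * sg (η n') * g η)) : ℝ) : ℂ) := by
  have hne : ∀ n : B0, (n : Mom) ≠ 0 := fun n h => hB0.zero (h ▸ n.2)
  have hcc := cas_continuous
  -- the functions
  let f1 : B0 → T3 × T3 → ℝ := fun n z => (cas n z.1 + cas n z.2) ^ 2
  let f2 : B0 → B0 → T3 × T3 → ℝ := fun n n' z =>
    cas n z.1 ^ 2 * cas n' z.2 ^ 2 + cas n z.1 * cas n z.2 * (cas n' z.1 * cas n' z.2)
  have hf1 : ∀ n, Continuous (f1 n) := by
    intro n
    exact (((hcc n).comp continuous_fst).add ((hcc n).comp continuous_snd)).pow 2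
  have hf2 : ∀ n n', Continuous (f2 n n') := by
    intro n n'
    exact ((((hcc n).comp continuous_fst).pow 2).mul (((hcc n').comp continuous_snd).pow 2)).add
      ((((hcc n).comp continuous_fst).mul ((hcc n).comp continuous_snd)).mul
        (((hcc n').comp continuous_fst).mul ((hcc n').comp continuous_snd)))
  let f0 : T3 × T3 → ℝ := fun z => (1 - wf B0 c (z.1 - z.2)) ^ 2
  have hf0 : Continuous f0 := by
    have := qs_wf_cont B0 c
    exact (continuous_const.sub (this.comp (continuous_fst.sub continuous_snd))).pow 2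
  have hI0 : ∫ z : T3 × T3, W (z.1 - z.2) * f0 z ∂(volume.prod volume) =
      ∫ y, W y * (1 - wf B0 c y) ^ 2 := by
    apply qs_diff (W := W) (fun y => (1 - wf B0 c y) ^ 2)
    have hcont : Continuous fun y => (1 - wf B0 c y) ^ 2 :=
      (continuous_const.sub (qs_wf_cont B0 c)).pow 2
    obtain ⟨C, hC⟩ := isCompact_univ.exists_bound_of_continuousOn hcont.continuousOn
    exact hW.int.mul_bdd hcont.aestronglyMeasurable
      (Filter.Eventually.of_forall fun z => hC z (Set.mem_univ _))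
  have hcl : ∀ n : B0, ∫ z : T3 × T3, W (z.1 - z.2) * cas n z.1 ^ 2 ∂(volume.prod volume) =
      ∫ y, W y := by
    intro n
    rw [qs_left hW (h := fun y => cas n y ^ 2) ((hcc n).pow 2), int_cas_sq (hne n), mul_one]
  have hcr : ∀ n : B0, ∫ z : T3 × T3, W (z.1 - z.2) * cas n z.2 ^ 2 ∂(volume.prod volume) =
      ∫ y, W y := by
    intro n
    rw [qs_right hW (h := fun y => cas n y ^ 2) ((hcc n).pow 2), int_cas_sq (hne n), mul_one]
  have hcli : ∀ n : B0, Integrable (fun z : T3 × T3 => W (z.1 - z.2) * cas n z.1 ^ 2)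
      (volume.prod volume) := fun n =>
    qs_intR hW (f := fun z => cas n z.1 ^ 2) (((hcc n).comp continuous_fst).pow 2)
  have hcri : ∀ n : B0, Integrable (fun z : T3 × T3 => W (z.1 - z.2) * cas n z.2 ^ 2)
      (volume.prod volume) := fun n =>
    qs_intR hW (f := fun z => cas n z.2 ^ 2) (((hcc n).comp continuous_snd).pow 2)
  refine ⟨fun n => ∫ z : T3 × T3, W (z.1 - z.2) * f1 n z ∂(volume.prod volume),
    fun n n' => ∫ z : T3 × T3, W (z.1 - z.2) * f2 n n' z ∂(volume.prod volume), ?_, ?_, ?_⟩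
  · intro n
    constructor
    · exact integral_nonneg fun z => mul_nonneg (hW.nonneg _) (sq_nonneg _)
    · have h1 : ∫ z : T3 × T3, W (z.1 - z.2) * f1 n z ∂(volume.prod volume) ≤
          ∫ z : T3 × T3, (2 * (W (z.1 - z.2) * cas n z.1 ^ 2) +
            2 * (W (z.1 - z.2) * cas n z.2 ^ 2)) ∂(volume.prod volume) := by
        apply integral_mono (qs_intR hW (hf1 n))
          (((hcli n).const_mul 2).add ((hcri n).const_mul 2))
        intro z
        have hw := hW.nonneg (z.1 - z.2)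
        show W (z.1 - z.2) * (cas n z.1 + cas n z.2) ^ 2 ≤ 2 * (W (z.1 - z.2) * cas n z.1 ^ 2) +
            2 * (W (z.1 - z.2) * cas n z.2 ^ 2)
        nlinarith [mul_nonneg hw (sq_nonneg (cas n z.1 - cas n z.2))]
      rw [integral_add ((hcli n).const_mul 2) ((hcri n).const_mul 2), integral_const_mul,
        integral_const_mul, hcl, hcr] at h1
      linarith
  · intro n n' _
    have h1 : ∫ z : T3 × T3, W (z.1 - z.2) * f2 n n' z ∂(volume.prod volume) ≤
          ∫ z : T3 × T3, (3 * (W (z.1 - z.2) * cas n z.1 ^ 2) +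
            (W (z.1 - z.2) * cas n z.2 ^ 2)) ∂(volume.prod volume) := by
      apply integral_mono (qs_intR hW (hf2 n n')) (((hcli n).const_mul 3).add (hcri n))
      intro z
      have hw := hW.nonneg (z.1 - z.2)
      show W (z.1 - z.2) * (cas n z.1 ^ 2 * cas n' z.2 ^ 2 +
        cas n z.1 * cas n z.2 * (cas n' z.1 * cas n' z.2)) ≤ 3 * (W (z.1 - z.2) * cas n z.1 ^ 2) +
            (W (z.1 - z.2) * cas n z.2 ^ 2)
      have a1 := cas_sq_le n' z.1
      have a2 := cas_sq_le n' z.2
      have hpt : cas n z.1 ^ 2 * cas n' z.2 ^ 2 +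
        cas n z.1 * cas n z.2 * (cas n' z.1 * cas n' z.2) ≤ 3 * cas n z.1 ^ 2 + cas n z.2 ^ 2 := by
        nlinarith [mul_nonneg (sq_nonneg (cas n z.1)) (sub_nonneg.2 a2),
          mul_nonneg (sq_nonneg (cas n z.2)) (sub_nonneg.2 a1),
          sq_nonneg (cas n z.1 * cas n' z.2 - cas n z.2 * cas n' z.1)]
      nlinarith [mul_le_mul_of_nonneg_left hpt hw]
    rw [integral_add ((hcli n).const_mul 3) (hcri n), integral_const_mul,
        hcl, hcr] at h1
    linarith
  · -- the main identity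
    have hFc : ∀ ξ ξ' : B0 → Bool, Continuous (fun y => conj (uf B0 c ξ y) * uf B0 c ξ' y) := by
      intro ξ ξ'
      exact (Complex.continuous_conj.comp (qs_uf_cont B0 c ξ)).mul (qs_uf_cont B0 c ξ')
    have hFc2 : ∀ ξ ξ' : B0 → Bool, Continuous (fun z : T3 × T3 =>
        (conj (uf B0 c ξ z.1) * uf B0 c ξ' z.1) * (conj (uf B0 c ξ z.2) * uf B0 c ξ' z.2)) := by
      intro ξ ξ'
      exact ((hFc ξ ξ').comp continuous_fst).mul ((hFc ξ ξ').comp continuous_snd)
    have hLHS : (∑ ξ : B0 → Bool, ∑ ξ' : B0 → Bool,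
        quad W (fun y => conj (uf B0 c ξ y) * uf B0 c ξ' y) *
          (g (fun n => ξ n == ξ' n) : ℂ)) =
        ∫ z : T3 × T3, (W (z.1 - z.2) : ℂ) * (∑ ξ : B0 → Bool, ∑ ξ' : B0 → Bool,
          ((conj (uf B0 c ξ z.1) * uf B0 c ξ' z.1) * (conj (uf B0 c ξ z.2) * uf B0 c ξ' z.2)) *
            (g (fun n => ξ n == ξ' n) : ℂ)) ∂(volume.prod volume) := by
      simp_rw [Finset.mul_sum]
      rw [integral_finsetSum]
      · apply Finset.sum_congr rfl
        intro ξ _
        rw [integral_finsetSum]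
        · apply Finset.sum_congr rfl
          intro ξ' _
          rw [qs_quad hW (hFc ξ ξ'), ← integral_mul_const]
          simp only [mul_assoc]
        · intro ξ' _
          exact qs_intC hW (f := fun z => ((conj (uf B0 c ξ z.1) * uf B0 c ξ' z.1) *
            (conj (uf B0 c ξ z.2) * uf B0 c ξ' z.2)) * (g (fun n => ξ n == ξ' n) : ℂ))
            ((hFc2 ξ ξ').mul continuous_const)
      · intro ξ _
        apply integrable_finsetSum
        intro ξ' _
        exact qs_intC hW (f := fun z => ((conj (uf B0 c ξ z.1) * uf B0 c ξ' z.1) *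
            (conj (uf B0 c ξ z.2) * uf B0 c ξ' z.2)) * (g (fun n => ξ n == ξ' n) : ℂ))
            ((hFc2 ξ ξ').mul continuous_const)
    rw [hLHS]
    have hpt : ∀ z : T3 × T3, (W (z.1 - z.2) : ℂ) * (∑ ξ : B0 → Bool, ∑ ξ' : B0 → Bool,
          ((conj (uf B0 c ξ z.1) * uf B0 c ξ' z.1) * (conj (uf B0 c ξ z.2) * uf B0 c ξ' z.2)) *
            (g (fun n => ξ n == ξ' n) : ℂ)) =
        ((2 ^ Fintype.card B0 * ((∑ η, g η) * (W (z.1 - z.2) * f0 z)
          + ∑ n : B0, |c n| * (∑ η, sg (η n) * g η) * (W (z.1 - z.2) * f1 n z)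
          + ∑ n : B0, ∑ n' ∈ Finset.univ.erase n, |c n| * |c n'| *
            (∑ η, sg (η n) * sg (η n') * g η) * (W (z.1 - z.2) * f2 n n' z)) : ℝ) : ℂ) := by
      intro z
      have hsub := qs_subst (K := B0) (fun ξ ξ' => (conj (uf B0 c ξ z.1) * uf B0 c ξ' z.1) *
        (conj (uf B0 c ξ z.2) * uf B0 c ξ' z.2)) (fun η => (g η : ℂ))
      rw [hsub]
      have hpp : ∀ η : B0 → Bool, ∑ ξ : B0 → Bool, (conj (uf B0 c ξ z.1) *
          uf B0 c (fun n => η n == ξ n) z.1) *
          (conj (uf B0 c ξ z.2) * uf B0 c (fun n => η n == ξ n) z.2) =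
          ((2 ^ Fintype.card B0 * (f0 z + ∑ n : B0, |c n| * f1 n z * sg (η n)
            + ∑ n : B0, ∑ n' ∈ Finset.univ.erase n, |c n| * |c n'| * f2 n n' z *
              (sg (η n) * sg (η n'))) : ℝ) : ℂ) := by
        intro η
        have := qs_point (K := B0) (fun n => sr c n) (fun n => c n) (fun n => cas n z.1)
          (fun n => cas n z.2) (fun n => sr_sq c n) (fun n => sr_norm c n) η
        have hw : ∑ n : B0, c n * (cas n z.1 * cas n z.2) = wf B0 c (z.1 - z.2) := by
          rw [← sum_cas hB0 hc z.1 z.2]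
          exact Finset.sum_coe_sort B0 (fun n => c n * (cas n z.1 * cas n z.2))
        rw [hw] at this
        exact this
      simp_rw [hpp]
      have hre : W (z.1 - z.2) * ∑ η : B0 → Bool, g η * (2 ^ Fintype.card B0 * (f0 z
            + ∑ n : B0, |c n| * f1 n z * sg (η n)
            + ∑ n : B0, ∑ n' ∈ Finset.univ.erase n, |c n| * |c n'| * f2 n n' z *
              (sg (η n) * sg (η n')))) =
          2 ^ Fintype.card B0 * ((∑ η, g η) * (W (z.1 - z.2) * f0 z)
          + ∑ n : B0, |c n| * (∑ η, sg (η n) * g η) * (W (z.1 - z.2) * f1 n z)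
          + ∑ n : B0, ∑ n' ∈ Finset.univ.erase n, |c n| * |c n'| *
            (∑ η, sg (η n) * sg (η n') * g η) * (W (z.1 - z.2) * f2 n n' z)) := by
        have r1 : ∑ n : B0, |c n| * (∑ η, sg (η n) * g η) * (W (z.1 - z.2) * f1 n z) =
            ∑ η : B0 → Bool, ∑ n : B0, |c n| * (sg (η n) * g η) * (W (z.1 - z.2) * f1 n z) := by
          rw [Finset.sum_comm]
          apply Finset.sum_congr rfl
          intro n _
          rw [Finset.mul_sum, Finset.sum_mul]
        have r2 : ∑ n : B0, ∑ n' ∈ Finset.univ.erase n, |c n| * |c n'| *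
            (∑ η, sg (η n) * sg (η n') * g η) * (W (z.1 - z.2) * f2 n n' z) =
            ∑ η : B0 → Bool, ∑ n : B0, ∑ n' ∈ Finset.univ.erase n, |c n| * |c n'| *
            (sg (η n) * sg (η n') * g η) * (W (z.1 - z.2) * f2 n n' z) := by
          rw [Finset.sum_comm]
          apply Finset.sum_congr rfl
          intro n _
          rw [Finset.sum_comm]
          apply Finset.sum_congr rfl
          intro n' _
          rw [Finset.mul_sum, Finset.sum_mul]
        rw [r1, r2, Finset.sum_mul, ← Finset.sum_add_distrib, ← Finset.sum_add_distrib,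
          Finset.mul_sum, Finset.mul_sum]
        apply Finset.sum_congr rfl
        intro η _
        have r3 : ∑ n : B0, |c n| * (sg (η n) * g η) * (W (z.1 - z.2) * f1 n z) =
            (W (z.1 - z.2) * g η) * ∑ n : B0, |c n| * f1 n z * sg (η n) := by
          rw [Finset.mul_sum]
          apply Finset.sum_congr rfl
          intro n _
          ring
        have r4 : ∑ n : B0, ∑ n' ∈ Finset.univ.erase n, |c n| * |c n'| *
            (sg (η n) * sg (η n') * g η) * (W (z.1 - z.2) * f2 n n' z) =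
            (W (z.1 - z.2) * g η) * ∑ n : B0, ∑ n' ∈ Finset.univ.erase n,
              |c n| * |c n'| * f2 n n' z * (sg (η n) * sg (η n')) := by
          rw [Finset.mul_sum]
          apply Finset.sum_congr rfl
          intro n _
          rw [Finset.mul_sum]
          apply Finset.sum_congr rfl
          intro n' _
          ring
        rw [r3, r4]
        ring
      rw [← hre]
      push_cast
      rfl
    simp_rw [hpt]
    rw [integral_complex_ofReal]
    congr 1
    rw [integral_const_mul]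
    congr 1
    have i0 : Integrable (fun z : T3 × T3 => (∑ η, g η) * (W (z.1 - z.2) * f0 z))
      (volume.prod volume) := (qs_intR hW hf0).const_mul _
    have i1 : ∀ n : B0, Integrable (fun z : T3 × T3 => |c n| * (∑ η, sg (η n) * g η) *
        (W (z.1 - z.2) * f1 n z)) (volume.prod volume) :=
      fun n => (qs_intR hW (hf1 n)).const_mul _
    have i2 : ∀ n n' : B0, Integrable (fun z : T3 × T3 => |c n| * |c n'| *
        (∑ η, sg (η n) * sg (η n') * g η) * (W (z.1 - z.2) * f2 n n' z)) (volume.prod volume) :=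
      fun n n' => (qs_intR hW (hf2 n n')).const_mul _
    have i1s : Integrable (fun z : T3 × T3 => ∑ n : B0, |c n| * (∑ η, sg (η n) * g η) *
        (W (z.1 - z.2) * f1 n z)) (volume.prod volume) :=
      integrable_finsetSum _ fun n _ => i1 n
    have i2s : Integrable (fun z : T3 × T3 => ∑ n : B0, ∑ n' ∈ Finset.univ.erase n,
        |c n| * |c n'| * (∑ η, sg (η n) * sg (η n') * g η) * (W (z.1 - z.2) * f2 n n' z))
        (volume.prod volume) :=
      integrable_finsetSum _ fun n _ => integrable_finsetSum _ fun n' _ => i2 n n'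
    have hsplit : ∀ (u v w : T3 × T3 → ℝ), Integrable u (volume.prod volume) →
        Integrable v (volume.prod volume) → Integrable w (volume.prod volume) →
        ∫ z, (u z + v z + w z) ∂(volume.prod volume) = (∫ z, u z ∂(volume.prod volume)) +
          (∫ z, v z ∂(volume.prod volume)) + ∫ z, w z ∂(volume.prod volume) := by
      intro u v w hu hv hw'
      rw [← integral_add hu hv]
      exact integral_add (hu.add hv) hw'
    rw [hsplit _ _ _ i0 i1s i2s, integral_const_mul, hI0,
      integral_finsetSum _ (fun n _ => i1 n),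
      integral_finsetSum _ (fun n _ => integrable_finsetSum _ fun n' _ => i2 n n')]
    congr 1
    · congr 1
      apply Finset.sum_congr rfl
      intro n _
      rw [integral_const_mul]
      ring
    · apply Finset.sum_congr rfl
      intro n _
      rw [integral_finsetSum _ (fun n' _ => i2 n n')]
      apply Finset.sum_congr rfl
      intro n' _
      rw [integral_const_mul]
      ring

end

end Pool.Agent.H751R2.LHY
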